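import Mathlib

/-! Function field and stalks of `Proj 𝒜` for a graded domain: everything is read off from a
compatible family of injections of the chart rings `Away 𝒜 f` into one field. -/

set_option autoImplicit false

open AlgebraicGeometry CategoryTheory HomogeneousLocalization HomogeneousIdeal Graded

namespace PoolPI.H60

universe u

variable {A σ : Type u} [CommRing A] [SetLike σ A] [AddSubgroupClass σ A]
  (𝒜 : ℕ → σ) [GradedRing 𝒜]

/-- a nonzero homogeneous element of positive degree -/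
structure HPos where
  /-- the element -/
  el : A
  /-- its degree -/
  deg : ℕ
  mem : el ∈ 𝒜 deg
  pos : 0 < deg
  ne : el ≠ 0

variable {𝒜}

instance nonempty_basicOpen [IsDomain A] (f : HPos 𝒜) : Nonempty (Proj.basicOpen 𝒜 f.el) := by
  refine ⟨⟨(⟨⊥, ?_, ?_⟩ : ProjectiveSpectrum 𝒜), ?_⟩⟩
  · exact Ideal.isPrime_bot
  · intro h
    have := h (HomogeneousIdeal.mem_irrelevant_of_mem 𝒜 f.pos f.mem)
    exact f.ne (Ideal.mem_bot.mp (show f.el ∈ (⊥ : Ideal A) from this))
  · intro h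
    exact f.ne (Ideal.mem_bot.mp (show f.el ∈ (⊥ : Ideal A) from h))

/-- the homomorphism from the chart ring to the function field -/
noncomputable def rho [IsDomain A] [IrreducibleSpace (Proj 𝒜)] (f : HPos 𝒜) :
    Away 𝒜 f.el →+* (Proj 𝒜).functionField :=
  ((Proj 𝒜).germToFunctionField (Proj.basicOpen 𝒜 f.el)).hom.comp
    (Proj.awayToSection 𝒜 f.el).hom

theorem rho_awayMap [IsDomain A] [IrreducibleSpace (Proj 𝒜)] (f x : HPos 𝒜) (g : A) {m : ℕ}
    (hg : g ∈ 𝒜 m) (hx : x.el = f.el * g) :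
    (rho x).comp (awayMap 𝒜 hg hx) = rho f := by
  have h := Proj.awayMap_awayToSection 𝒜 hg hx (f := f.el) (x := x.el)
  ext z
  have h1 := congrArg (fun w => w.hom z) h
  simp only [rho, RingHom.comp_apply]
  simp only [CommRingCat.hom_comp, RingHom.comp_apply, CommRingCat.hom_ofHom] at h1
  rw [h1]
  exact TopCat.Presheaf.germ_res_apply _ _ _ _ _

/-- `rho f` makes the function field the fraction field of the chart ring -/
theorem rho_injective [IsDomain A] [IsIntegral (Proj 𝒜)] (f : HPos 𝒜) :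
    Function.Injective (rho f) := by
  have h1 := (Proj 𝒜).germToFunctionField_injective (Proj.basicOpen 𝒜 f.el)
  have h2 : Function.Injective (Proj.awayToSection 𝒜 f.el).hom :=
    (Proj.basicOpenIsoAway 𝒜 f.el f.mem f.pos).commRingCatIsoToRingEquiv.injective
  intro a b hab
  exact h2 (h1 hab)

theorem rho_frac [IsDomain A] [IsIntegral (Proj 𝒜)] (f : HPos 𝒜) (z : (Proj 𝒜).functionField) :
    ∃ a b : Away 𝒜 f.el, b ≠ 0 ∧ z * rho f b = rho f a := by
  have hU := Proj.isAffineOpen_basicOpen 𝒜 f.el f.mem f.pos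
  have := functionField_isFractionRing_of_isAffineOpen (Proj 𝒜) _ hU
  obtain ⟨a, b, hb, rfl⟩ := IsFractionRing.div_surjective (A := Γ(Proj 𝒜, Proj.basicOpen 𝒜 f.el)) z
  have h2 : Function.Surjective (Proj.awayToSection 𝒜 f.el).hom :=
    (Proj.basicOpenIsoAway 𝒜 f.el f.mem f.pos).commRingCatIsoToRingEquiv.surjective
  obtain ⟨a, rfl⟩ := h2 a
  obtain ⟨b, rfl⟩ := h2 b
  have hb0 : rho f b ≠ 0 := by
    have := nonZeroDivisors.ne_zero hb
    intro h
    apply this
    have h1 := (Proj 𝒜).germToFunctionField_injective (Proj.basicOpen 𝒜 f.el)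
    apply h1
    simpa [rho] using h
  refine ⟨a, b, ?_, ?_⟩
  · rintro rfl
    exact hb0 (map_zero _)
  · change _ / rho f b * rho f b = rho f a
    rw [div_mul_cancel₀ _ hb0]
    rfl

variable {K : Type u} [Field K]

/-- A compatible family of injections of all chart rings into a field. -/
structure ChartMaps (𝒜 : ℕ → σ) [GradedRing 𝒜] (K : Type u) [Field K] where
  /-- the embeddings -/
  map : ∀ f : HPos 𝒜, Away 𝒜 f.el →+* K
  inj : ∀ f, Function.Injective (map f)
  comp : ∀ (f x : HPos 𝒜) (g : A) (m : ℕ) (hg : g ∈ 𝒜 m) (hx : x.el = f.el * g),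
    (map x).comp (awayMap 𝒜 hg hx) = map f

/-- product of homogeneous elements of positive degree -/
def HPos.mul [IsDomain A] (f g : HPos 𝒜) : HPos 𝒜 where
  el := f.el * g.el
  deg := f.deg + g.deg
  mem := SetLike.mul_mem_graded f.mem g.mem
  pos := by have := f.pos; omega
  ne := mul_ne_zero f.ne g.ne

/-- two ring homs out of `Away (f g)` agreeing on `Away f` agree -/
theorem ringHom_ext_awayMap {L : Type*} [CommRing L] (f x : HPos 𝒜) (g : A) {m : ℕ} (hg : g ∈ 𝒜 m)
    (hx : x.el = f.el * g) (a b : Away 𝒜 x.el →+* L)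
    (h : a.comp (awayMap 𝒜 hg hx) = b.comp (awayMap 𝒜 hg hx)) : a = b := by
  letI := (awayMap 𝒜 hg hx).toAlgebra
  have := Away.isLocalization_mul f.mem hg hx f.pos.ne'
  exact IsLocalization.ringHom_ext (Submonoid.powers (Away.isLocalizationElem f.mem hg)) h

theorem isFractionRing_of_inj {R L : Type*} [CommRing R] [Field L] (φ : R →+* L)
    (hφ : Function.Injective φ) (h : ∀ z : L, ∃ a b : R, b ≠ 0 ∧ z * φ b = φ a) :
    letI := φ.toAlgebra
    IsFractionRing R L := by
  letI := φ.toAlgebra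
  have : FaithfulSMul R L := (faithfulSMul_iff_algebraMap_injective R L).mpr hφ
  refine IsFractionRing.of_field _ _ fun z => ?_
  obtain ⟨a, b, hb, h⟩ := h z
  exact ⟨a, b, (eq_div_iff (fun h0 => hb (hφ (by
    rw [map_zero]; exact h0)))).mpr h⟩

/-- The function field is identified with `K`, compatibly with every chart. -/
theorem exists_fieldEquiv [IsDomain A] [IsIntegral (Proj 𝒜)] (C : ChartMaps 𝒜 K) (f₀ : HPos 𝒜)
    (hf : ∀ z : K, ∃ a b : Away 𝒜 f₀.el, b ≠ 0 ∧ z * C.map f₀ b = C.map f₀ a) :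
    ∃ E : (Proj 𝒜).functionField ≃+* K, ∀ (f : HPos 𝒜) (a : Away 𝒜 f.el),
      E (rho f a) = C.map f a := by
  let a1 : Algebra (Away 𝒜 f₀.el) (Proj 𝒜).functionField := (rho f₀).toAlgebra
  let a2 : Algebra (Away 𝒜 f₀.el) K := (C.map f₀).toAlgebra
  have i1 : IsFractionRing (Away 𝒜 f₀.el) (Proj 𝒜).functionField :=
    isFractionRing_of_inj _ (rho_injective f₀) (rho_frac f₀)
  have i2 : IsFractionRing (Away 𝒜 f₀.el) K :=
    isFractionRing_of_inj _ (C.inj f₀) hf
  let E := IsLocalization.algEquiv (nonZeroDivisors (Away 𝒜 f₀.el)) (Proj 𝒜).functionField K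
  have hE : ((E : (Proj 𝒜).functionField →+* K)).comp (rho f₀) = C.map f₀ := by
    ext a
    exact E.commutes a
  refine ⟨E.toRingEquiv, fun f a => ?_⟩
  have h1 : ((E : (Proj 𝒜).functionField →+* K)).comp (rho (f₀.mul f)) = C.map (f₀.mul f) := by
    refine ringHom_ext_awayMap f₀ (f₀.mul f) f.el f.mem rfl _ _ ?_
    rw [RingHom.comp_assoc, rho_awayMap f₀ (f₀.mul f) f.el f.mem rfl, hE,
      C.comp f₀ (f₀.mul f) f.el _ f.mem rfl]
  have h2 : ((E : (Proj 𝒜).functionField →+* K)).comp (rho f) = C.map f := by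
    rw [← rho_awayMap f (f₀.mul f) f₀.el f₀.mem (mul_comm _ _), ← RingHom.comp_assoc, h1,
      C.comp f (f₀.mul f) f₀.el _ f₀.mem (mul_comm _ _)]
  exact congrArg (fun w => w a) h2

/-- Every stalk at a point of `D₊(f)` is a localisation of the chart ring, inside the function
field. -/
theorem exists_stalk_prime [IsDomain A] [IsIntegral (Proj 𝒜)] (f : HPos 𝒜) (x : Proj 𝒜)
    (hx : x ∈ Proj.basicOpen 𝒜 f.el) :
    ∃ 𝔭 : Ideal (Away 𝒜 f.el), 𝔭.IsPrime ∧ ∀ z : (Proj 𝒜).functionField,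
      (∃ s : (Proj 𝒜).presheaf.stalk x,
        algebraMap ((Proj 𝒜).presheaf.stalk x) (Proj 𝒜).functionField s = z) ↔
      ∃ a b : Away 𝒜 f.el, b ∉ 𝔭 ∧ z * rho f b = rho f a := by
  have hU := Proj.isAffineOpen_basicOpen 𝒜 f.el f.mem f.pos
  let U := Proj.basicOpen 𝒜 f.el
  let y : U := ⟨x, hx⟩
  let _hA := TopCat.Presheaf.algebra_section_stalk (Proj 𝒜).presheaf y
  have hL := hU.isLocalization_stalk y
  have hT := functionField_isScalarTower (Proj 𝒜) U y
  let e : Away 𝒜 f.el ≃+* Γ(Proj 𝒜, U) :=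
    (Proj.basicOpenIsoAway 𝒜 f.el f.mem f.pos).commRingCatIsoToRingEquiv
  have he : ∀ a, rho f a = algebraMap Γ(Proj 𝒜, U) (Proj 𝒜).functionField (e a) := fun a => rfl
  let 𝔮 : Ideal Γ(Proj 𝒜, U) := (hU.primeIdealOf y).asIdeal
  have h𝔮 : 𝔮.IsPrime := (hU.primeIdealOf y).isPrime
  refine ⟨𝔮.comap (e : Away 𝒜 f.el →+* Γ(Proj 𝒜, U)), inferInstance, fun z => ?_⟩
  constructor
  · rintro ⟨s, rfl⟩
    obtain ⟨⟨a, b, hb⟩, h⟩ := IsLocalization.surj (𝔮.primeCompl) s
    refine ⟨e.symm a, e.symm b, ?_, ?_⟩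
    · change e (e.symm b) ∉ 𝔮
      rw [e.apply_symm_apply]
      exact hb
    · rw [he, he, e.apply_symm_apply, e.apply_symm_apply,
        IsScalarTower.algebraMap_apply Γ(Proj 𝒜, U) ((Proj 𝒜).presheaf.stalk x)
          (Proj 𝒜).functionField b,
        IsScalarTower.algebraMap_apply Γ(Proj 𝒜, U) ((Proj 𝒜).presheaf.stalk x)
          (Proj 𝒜).functionField a, ← map_mul]
      exact congrArg _ h
  · rintro ⟨a, b, hb, h⟩
    have hb' : e b ∈ 𝔮.primeCompl := hb
    refine ⟨IsLocalization.mk' _ (e a) (⟨e b, hb'⟩ : 𝔮.primeCompl), ?_⟩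
    have hb0 : rho f b ≠ 0 := by
      intro h0
      apply hb
      have : b = 0 := rho_injective f (by rw [h0, map_zero])
      rw [this]; exact zero_mem _
    rw [← mul_left_inj' hb0, h, he, he,
      IsScalarTower.algebraMap_apply Γ(Proj 𝒜, U) ((Proj 𝒜).presheaf.stalk x)
          (Proj 𝒜).functionField (e b),
        IsScalarTower.algebraMap_apply Γ(Proj 𝒜, U) ((Proj 𝒜).presheaf.stalk x)
          (Proj 𝒜).functionField (e a), ← map_mul]
    congr 1
    exact IsLocalization.mk'_spec _ (e a) (⟨e b, hb'⟩ : 𝔮.primeCompl)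

end PoolPI.H60
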